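import Mathlib
import Pool.Agent.Work.MP_7aa44c_gt.Core

/-!
# Rectifiable p-spaces are D-spaces

The answer to Q1 in the wording of the problem, for spaces in an arbitrary universe.
-/

set_option autoImplicit false

namespace Pool.Agent.Results.MP_7aa44c_gt.RectifiablePSpaces

universe u

/-- `X` is rectifiable: there are a point `e` and a homeomorphism `φ` of `X × X` onto itself
such that `φ` maps `{x} × X` onto `{x} × X` and `φ (x, x) = (x, e)` for all `x`. -/
def Rectifiable (X : Type u) [TopologicalSpace X] : Prop :=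
  ∃ (e : X) (φ : X × X ≃ₜ X × X),
    (∀ x : X, φ '' ({x} ×ˢ Set.univ) = {x} ×ˢ Set.univ) ∧ ∀ x : X, φ (x, x) = (x, e)

/-- The star of the point `z` in the family `γ`: the union of the members of `γ` containing `z`. -/
def St {Y : Type u} (z : Y) (γ : Set (Set Y)) : Set Y := ⋃₀ {U | U ∈ γ ∧ z ∈ U}

/-- `X` is a p-space (Arhangelskii): it is Tychonoff, and there are families `γ n` of open
subsets of the Stone-Cech compactification, each covering `X`, such that for all `x` in `X` the
intersection of the stars of `x` in the `γ n` is contained in `X`. -/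
def IsPSpace (X : Type u) [TopologicalSpace X] : Prop :=
  T35Space X ∧ ∃ γ : ℕ → Set (Set (StoneCech X)),
    (∀ n, ∀ U ∈ γ n, IsOpen U) ∧
    (∀ n, Set.range (stoneCechUnit : X → StoneCech X) ⊆ ⋃₀ γ n) ∧
    ∀ x : X, (⋂ n, St (stoneCechUnit x) (γ n)) ⊆ Set.range (stoneCechUnit : X → StoneCech X)

/-- `X` is a D-space: for every neighbourhood assignment `O` (`O x` open, `x ∈ O x`) there is
a closed discrete subset `D` of `X` such that the sets `O x`, `x ∈ D`, cover `X`. -/
def IsDSpace (X : Type u) [TopologicalSpace X] : Prop :=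
  ∀ O : X → Set X, (∀ x, IsOpen (O x) ∧ x ∈ O x) →
    ∃ D : Set X, IsClosed D ∧ DiscreteTopology D ∧ (⋃ x ∈ D, O x) = Set.univ

/-- **Every rectifiable p-space is a D-space.** -/
theorem result (X : Type u) [TopologicalSpace X] (hrect : Rectifiable X) (hp : IsPSpace X) :
    IsDSpace X := by
  classical
  obtain ⟨e, φ, hφ0, hφ2⟩ := hrect
  have hφ1 : ∀ z : X × X, (φ z).1 = z.1 := by
    intro z
    have : φ z ∈ φ '' ({z.1} ×ˢ Set.univ) := ⟨z, by simp, rfl⟩
    rw [hφ0 z.1] at this
    exact this.1
  obtain ⟨hT, γ, hγo, hγc', hγ⟩ := hp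
  have hγc : ∀ n, ∀ x : X, ∃ U ∈ γ n, stoneCechUnit x ∈ U := fun n x =>
    Set.mem_sUnion.1 (hγc' n ⟨x, rfl⟩)
  intro O hO
  have hN : ∀ x, O x ∈ nhds x := fun x => (hO x).1.mem_nhds (hO x).2
  -- the two operations of the rectification
  let q : X × X → X := fun z => (φ z).2
  let p : X × X → X := fun z => (φ.symm z).2
  have hq : Continuous q := continuous_snd.comp φ.continuous
  have hpc : Continuous p := continuous_snd.comp φ.symm.continuous
  have hpq : ∀ x y, p (x, q (x, y)) = y := by
    intro x y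
    have h1 : (x, q (x, y)) = φ (x, y) := Prod.ext (hφ1 (x, y)).symm rfl
    simp only [p, h1, Homeomorph.symm_apply_apply]
  have hqe : ∀ x, q (x, x) = e := fun x => by simp only [q, hφ2]
  -- a compact set of countable character containing `e`
  set e' : StoneCech X := stoneCechUnit e with he'
  choose G hGγ heG using fun n => hγc n e
  have step : ∀ W : {W : Set (StoneCech X) // IsOpen W ∧ e' ∈ W},
      ∃ V : {W : Set (StoneCech X) // IsOpen W ∧ e' ∈ W}, closure V.1 ⊆ W.1 := by
    rintro ⟨W, hW, heW⟩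
    obtain ⟨C, hC, hCc, hCW⟩ := exists_mem_nhds_isClosed_subset (hW.mem_nhds heW)
    exact ⟨⟨interior C, isOpen_interior, mem_interior_iff_mem_nhds.2 hC⟩,
      (closure_minimal interior_subset hCc).trans hCW⟩
  choose f hf using step
  let Gs : ℕ → {W : Set (StoneCech X) // IsOpen W ∧ e' ∈ W} := fun n =>
    ⟨G n, hγo n _ (hGγ n), heG n⟩
  let V : ℕ → {W : Set (StoneCech X) // IsOpen W ∧ e' ∈ W} := fun n =>
    Nat.rec (Gs 0) (fun n W => f ⟨W.1 ∩ (Gs (n + 1)).1,
      W.2.1.inter (Gs (n + 1)).2.1, W.2.2, (Gs (n + 1)).2.2⟩) n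
  have hVsucc : ∀ n, closure (V (n + 1)).1 ⊆ (V n).1 ∩ G (n + 1) := fun n => hf _
  have hVG : ∀ n, (V n).1 ⊆ G n := by
    intro n
    cases n with
    | zero => exact subset_rfl
    | succ n => exact subset_closure.trans ((hVsucc n).trans Set.inter_subset_right)
  have hVanti : Antitone fun n => (V n).1 := antitone_nat_of_succ_le fun n =>
    subset_closure.trans ((hVsucc n).trans Set.inter_subset_left)
  have hVclanti : Antitone fun n => closure (V n).1 := fun i j hij => closure_mono (hVanti hij)
  have hinter : (⋂ n, (V n).1) = ⋂ n, closure (V n).1 := by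
    apply Set.Subset.antisymm
    · exact Set.iInter_mono fun n => subset_closure
    · intro x hx
      exact Set.mem_iInter.2 fun n => ((hVsucc n) (Set.mem_iInter.1 hx (n + 1))).1
  have hFrange : (⋂ n, (V n).1) ⊆ Set.range (stoneCechUnit : X → StoneCech X) := by
    intro z hz
    apply hγ e
    refine Set.mem_iInter.2 fun n => Set.mem_sUnion.2 ⟨G n, ⟨hGγ n, heG n⟩, ?_⟩
    exact hVG n (Set.mem_iInter.1 hz n)
  have hFc : IsCompact (⋂ n, (V n).1) := by
    rw [hinter]
    exact (isClosed_iInter fun n => isClosed_closure).isCompact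
  let U : ℕ → Set X := fun n => stoneCechUnit ⁻¹' (V n).1
  have hFeq : (⋂ n, U n) = stoneCechUnit ⁻¹' (⋂ n, (V n).1) := by
    rw [Set.preimage_iInter]
  refine Pool.Agent.Work.MP_7aa44c_gt.dspace_of_rectification e q p hq hpc hpq hqe U
    (fun n => (V n).2.1.preimage continuous_stoneCechUnit) (fun n => (V n).2.2) ?_ ?_ ?_ O hN
  · intro n
    refine (continuous_stoneCechUnit.closure_preimage_subset _).trans ?_
    exact Set.preimage_mono ((hVsucc n).trans Set.inter_subset_left)
  · rw [hFeq]
    exact (isInducing_stoneCechUnit.isCompact_preimage_iff hFrange).2 hFc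
  · intro W hW hFW
    obtain ⟨W', hW', rfl⟩ := isInducing_stoneCechUnit.isOpen_iff.1 hW
    have hsub : ∀ z ∈ ⋂ n, closure (V n).1, W' ∈ nhds z := by
      intro z hz
      rw [← hinter] at hz
      obtain ⟨x, rfl⟩ := hFrange hz
      refine hW'.mem_nhds (hFW ?_)
      rw [hFeq]
      exact hz
    obtain ⟨n, hn⟩ := exists_subset_nhds_of_compactSpace
      (directed_of_isDirected_le fun i j hij => hVclanti hij) (fun n => isClosed_closure) hsub
    exact ⟨n, Set.preimage_mono (subset_closure.trans hn)⟩

end Pool.Agent.Results.MP_7aa44c_gt.RectifiablePSpaces
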